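import Pool.Agent.H51.ERA.Stmts

/-!
MP_e0047e_lc, board era, module ARR: rearrangement respecting kinds and marks.
-/

set_option autoImplicit false

namespace Pool.Agent.H37.ERA

open Pool.Agent.H51.ERA

theorem lift_perm {α κ : Type} (kd : α → κ) (K : List α) : ∀ K' : List α,
    (K.map kd).Perm (K'.map kd) → ∃ B : List α, B.Perm K' ∧ B.map kd = K.map kd := by
  induction K with
  | nil =>
    intro K' h
    rw [List.map_nil] at h
    have h1 := h.symm.eq_nil
    rw [List.map_eq_nil_iff] at h1
    exact ⟨[], by rw [h1], rfl⟩
  | cons a K ih =>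
    intro K' h
    have ha : kd a ∈ K'.map kd := h.subset (by simp)
    obtain ⟨a', ha', hk⟩ := List.mem_map.1 ha
    obtain ⟨l₁, l₂, rfl⟩ := List.append_of_mem ha'
    have h2 : (l₁ ++ a' :: l₂).Perm (a' :: (l₁ ++ l₂)) := List.perm_middle
    have h3 : ((a :: K).map kd).Perm ((a' :: (l₁ ++ l₂)).map kd) := h.trans (h2.map kd)
    rw [List.map_cons, List.map_cons, hk] at h3
    obtain ⟨B, hB1, hB2⟩ := ih (l₁ ++ l₂) h3.cons_inv
    refine ⟨a' :: B, (hB1.cons a').trans h2.symm, ?_⟩
    rw [List.map_cons, List.map_cons, hk, hB2]

theorem perm_cancel {κ : Type} {a a' b b' : List κ} (h : a.Perm a') (h' : (a ++ b).Perm (a' ++ b')) :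
    b.Perm b' := by
  have h2 : (a ++ b).Perm (a ++ b') := h'.trans (h.symm.append_right b')
  exact (List.perm_append_left_iff a).1 h2

theorem arr : ARRStmt := by
  intro α κ kd ms K K' hlen hms hall
  obtain ⟨n, hn⟩ : ∃ n, K.length = n := ⟨_, rfl⟩
  induction n using Nat.strong_induction_on generalizing K K' ms with
  | _ n ih =>
  by_cases hc : ∃ m ∈ ms, 0 < m ∧ m < n
  · obtain ⟨m, hm, hm0, hmn⟩ := hc
    have hl1 : (K.take m).length = m := by simp [hn, Nat.le_of_lt hmn]
    have hl1' : (K'.take m).length = m := by simp [← hlen, hn, Nat.le_of_lt hmn]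
    have hl2 : (K.drop m).length = n - m := by simp [hn]
    have hl2' : (K'.drop m).length = n - m := by simp [← hlen, hn]
    obtain ⟨B₁, hB1, hB1k, hB1m⟩ := ih m hmn (ms.filter (fun x => decide (x ≤ m))) (K.take m) (K'.take m)
      (by rw [hl1, hl1'])
      (by
        intro x hx
        rw [List.mem_filter] at hx
        have hxm : x ≤ m := by simpa using hx.2
        rw [List.take_take, List.take_take, Nat.min_eq_left hxm]
        exact hms x hx.1)
      (hms m hm) hl1
    have hsplit : ∀ L : List α, ∀ x, m ≤ x → L.take x = L.take m ++ (L.drop m).take (x - m) := by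
      intro L x hx
      have : L.take m = (L.take x).take m := by rw [List.take_take, Nat.min_eq_left hx]
      rw [this, ← List.drop_take, List.take_append_drop]
    obtain ⟨B₂, hB2, hB2k, hB2m⟩ := ih (n - m) (by omega)
      ((ms.filter (fun x => decide (m ≤ x))).map (fun x => x - m)) (K.drop m) (K'.drop m)
      (by rw [hl2, hl2'])
      (by
        intro y hy
        obtain ⟨x, hx, rfl⟩ := List.mem_map.1 hy
        rw [List.mem_filter] at hx
        have hxm : m ≤ x := by simpa using hx.2
        have h1 := hms x hx.1
        rw [hsplit K x hxm, hsplit K' x hxm, List.map_append, List.map_append] at h1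
        exact perm_cancel (hms m hm) h1)
      (by
        have h1 := hall
        rw [← List.take_append_drop m K, ← List.take_append_drop m K', List.map_append,
          List.map_append] at h1
        exact perm_cancel (hms m hm) h1)
      hl2
    have hBl : B₁.length = m := by rw [hB1.length_eq, hl1']
    refine ⟨B₁ ++ B₂, ?_, ?_, ?_⟩
    · have := hB1.append hB2
      rwa [List.take_append_drop] at this
    · rw [List.map_append, hB1k, hB2k, ← List.map_append, List.take_append_drop]
    · intro x hx
      rcases le_total x m with hxm | hxm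
      · have h1 := hB1m x (List.mem_filter.2 ⟨hx, by simpa using hxm⟩)
        rw [List.take_take, Nat.min_eq_left hxm] at h1
        rwa [List.take_append_of_le_length (by rw [hBl]; exact hxm)]
      · have h1 := hB2m (x - m) (List.mem_map.2 ⟨x, List.mem_filter.2 ⟨hx, by simpa using hxm⟩, rfl⟩)
        rw [hsplit K' x hxm, List.take_append, List.take_of_length_le (by rw [hBl]; exact hxm), hBl]
        exact hB1.append h1
  · obtain ⟨B, hB, hBk⟩ := lift_perm kd K K' hall
    refine ⟨B, hB, hBk, ?_⟩
    intro x hx
    rcases Nat.eq_zero_or_pos x with h0 | h0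
    · subst h0; simp
    · have hxn : n ≤ x := by
        by_contra hlt
        exact hc ⟨x, hx, h0, by omega⟩
      rw [List.take_of_length_le (by rw [hB.length_eq, ← hlen, hn]; exact hxn),
        List.take_of_length_le (by rw [← hlen, hn]; exact hxn)]
      exact hB

end Pool.Agent.H37.ERA
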