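import Pool.Agent.H51.ERA.Base
import Pool.Agent.H51.ERA.Stmts

/-!
MP_e0047e_lc, board era, module MK1: marks at a determined node.
-/

set_option autoImplicit false

namespace Pool.Agent.H37.ERA

open Pool.Agent.H51.ERA

theorem getElem_of_mem_take_drop {α : Type} {K : List α} {a b : ℕ} {x : α}
    (h : x ∈ (K.take b).drop a) : ∃ k, a ≤ k ∧ k < b ∧ K[k]? = some x := by
  obtain ⟨n, hn⟩ := List.mem_iff_getElem?.1 h
  rw [List.getElem?_drop] at hn
  have hlt : a + n < b := by
    by_contra hge
    rw [List.getElem?_take, if_neg hge] at hn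
    cases hn
  rw [List.getElem?_take, if_pos hlt] at hn
  exact ⟨a + n, Nat.le_add_right _ _, hlt, hn⟩

theorem sl_of_drop {W : List Ltr} {l x y : ℕ} {Z : List Ltr} (h : W.drop l = Z) :
    sl W (l + x) (l + y) = sl Z x y := by
  subst h
  unfold sl
  apply List.ext_getElem?
  intro n
  rw [List.getElem?_drop, List.getElem?_take, List.getElem?_drop, List.getElem?_take,
    List.getElem?_drop]
  have e : l + (x + n) = l + x + n := by omega
  by_cases h1 : x + n < y
  · rw [if_pos (by omega), if_pos h1, e]
  · rw [if_neg (by omega), if_neg h1]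

theorem sl_map_op (z : List Ent) (x y : ℕ) (R : List Ltr) (hy : y ≤ z.length) :
    sl (z.map Ltr.op ++ R) x y = ((z.take y).drop x).map Ltr.op := by
  unfold sl
  rw [List.take_append_of_le_length (by rw [List.length_map]; exact hy), ← List.map_take,
    ← List.map_drop]

theorem mk1 (hOPS : OPSStmt) (hHT : HTStmt) (hLEFT : LEFTStmt) (hWLEN : WLENStmt) : MK1Stmt := by
  intro s t b N K i p ht hne hK hnode hund
  obtain ⟨hi1, hp⟩ := hnode
  set l := lo s t i p with hl
  obtain ⟨hWl, hin⟩ := hWLEN s t b
  obtain ⟨hlo, hhi⟩ := hin i p ⟨hi1, hp⟩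
  obtain ⟨z, a, C, hz, ha, hzty⟩ := hLEFT s t b i p ⟨hi1, hp⟩
  have hzlen : z.length = (DD t + 1 - p.length) * gg s t := by
    have := congrArg List.length hzty
    simpa using this
  have hgz : gg s t ≤ z.length := by
    rw [hzlen]
    exact Nat.le_mul_of_pos_left _ (by omega)
  have hggdef : gg s t = lam s + t + ll s t := rfl
  have hll : lam s ≤ ll s t := by unfold ll; omega
  have hlenW : (WW s t b).length = l + (z.length + (C.length + 1)) := by
    have h1 := congrArg List.length hz
    rw [List.length_drop, List.length_append, List.length_map, List.length_cons] at h1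
    omega
  have hyl : (yl K).length = l + (z.length + (C.length + 1)) := by rw [hK, hlenW]
  -- not undetermined
  have hshort : ∀ k < K.length, ps K k < l + lam s + t → l + lam s < ps K (k + 1) →
      ps K (k + 1) < ps K k + lam s := by
    intro k hk h1 h2
    by_contra h3
    exact hund ⟨k, hk, by omega, h1, h2⟩
  obtain ⟨m1, hm1K, hm1a, hm1b⟩ := ps_find K (x := l + lam s) (by omega)
  obtain ⟨j2, hj2K, hj2a, hj2b⟩ := ps_find K (x := l + lam s + t - 1) (by omega)
  obtain ⟨m3, hm3K, hm3a, hm3b⟩ := ps_find K (x := l + z.length) (by omega)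
  have hs1 := hshort m1 hm1K (by omega) hm1b
  have hs2 := hshort j2 hj2K (by omega) (by omega)
  have h12' : m1 ≤ j2 := by
    by_contra hlt
    have := ps_mono K (show j2 + 1 ≤ m1 by omega)
    omega
  have h23 : j2 + 1 ≤ m3 := by
    by_contra hlt
    have := ps_mono K (show m3 + 1 ≤ j2 + 1 by omega)
    omega
  have hp1 : ps K m1 = l + (ps K m1 - l) := by omega
  have hp2 : ps K (j2 + 1) = l + (ps K (j2 + 1) - l) := by omega
  have hmono12 := ps_mono K (show m1 ≤ j2 + 1 by omega)
  have hmono23 := ps_mono K h23
  have hp3 : ps K m3 = l + (ps K m3 - l) := by omega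
  have hmono34 := ps_mono K (Nat.le_succ m3)
  simp only [Nat.succ_eq_add_one] at hmono34
  have hp4 : ps K (m3 + 1) = l + (ps K (m3 + 1) - l) := by omega
  refine ⟨ps K m1 - l, m1, j2 + 1, m3, ⟨hp, by omega, by omega, h23, hm3K, ?_, ?_, ?_, ?_, ?_⟩⟩
  · -- height at m1
    rw [yl_take, hK, hp1, Nat.add_sub_cancel_left]
    exact hHT s t b i p (ps K m1 - l) ⟨hi1, hp⟩ (by omega)
  · -- short entries
    intro x hx
    obtain ⟨k, hk1, hk2, hkx⟩ := getElem_of_mem_take_drop hx
    have hkK : k < K.length := by omega
    have hm1k := ps_mono K (show m1 + 1 ≤ k + 1 by omega)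
    have hkj2 := ps_mono K (show k ≤ j2 by omega)
    have h1 := hshort k hkK (by omega) (by omega)
    have h2 : K[k]? = some (x.1, x.2) := hkx
    have h3 := ps_succ K h2
    omega
  · -- the middle part
    refine ⟨(List.range' (ps K m1 - l) (ps K (j2 + 1) - l - (ps K m1 - l))).map
      (ent s t b (i, p)), ?_, ?_, ?_⟩
    · rw [yl_slice K (show m1 ≤ j2 + 1 by omega), hK, hp1, hp2, Nat.add_sub_cancel_left,
        Nat.add_sub_cancel_left]
      exact hOPS s t b i p _ _ ⟨hi1, hp⟩ (by omega) (by omega)
    · rw [List.length_map, List.length_range']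
      omega
    · rw [List.length_map, List.length_range', List.map_map]
      apply List.ext_getElem?
      intro n
      rw [List.getElem?_map, List.getElem?_map]
      by_cases hn : n < ps K (j2 + 1) - l - (ps K m1 - l)
      · rw [List.getElem?_range' hn, List.getElem?_range' hn]
        simp only [Option.map_some, Function.comp_apply, ent, Option.some.injEq]
        congr 1
        ring
      · rw [List.getElem?_eq_none (by rw [List.length_range']; omega),
          List.getElem?_eq_none (by rw [List.length_range']; omega)]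
        rfl
  · -- between m2 and m3
    refine ⟨(z.take (ps K m3 - l)).drop (ps K (j2 + 1) - l), ?_⟩
    rw [yl_slice K h23, hK, hp2, hp3, Nat.add_sub_cancel_left, Nat.add_sub_cancel_left,
      sl_of_drop hz, sl_map_op _ _ _ _ (by omega)]
  · -- the leaf
    refine ⟨z.drop (ps K m3 - l), a, sl C 0 (ps K (m3 + 1) - l - (z.length + 1)), ?_, ha, ?_⟩
    · rw [yl_slice K (Nat.le_succ m3), hK]
      simp only [Nat.succ_eq_add_one]
      rw [hp3, hp4, Nat.add_sub_cancel_left, Nat.add_sub_cancel_left, sl_of_drop hz]
      unfold sl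
      have hlen : ((z.map Ltr.op).length : ℕ) = z.length := List.length_map _
      have h5 : ps K (m3 + 1) - l = (z.map Ltr.op).length + (ps K (m3 + 1) - l - (z.length + 1) + 1) := by
        rw [hlen]; omega
      rw [h5, List.take_length_add_append, List.take_succ_cons,
        List.drop_append_of_le_length (by rw [hlen]; omega), ← List.map_drop, ← h5, List.drop_zero]
    · have h6 : yl (K.take m3) = (WW s t b).take l ++ ((z.take (ps K m3 - l)).map Ltr.op) := by
        rw [yl_take, hK, hp3, ← take_sl (WW s t b) (show l ≤ l + (ps K m3 - l) by omega)]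
        congr 1
        have h7 := sl_of_drop (x := 0) (y := ps K m3 - l) hz
        rw [Nat.add_zero] at h7
        rw [h7, sl_map_op _ _ _ _ (by omega), Nat.add_sub_cancel_left, List.drop_zero]
      have h8 := hHT s t b i p 0 ⟨hi1, hp⟩ (Nat.zero_le _)
      rw [Nat.add_zero, Nat.add_zero, ← hl] at h8
      rw [h6, List.countP_append, List.countP_append, countP_ops, countP_ops', h8, List.length_drop,
        List.length_take]
      have h9 : min (ps K m3 - l) z.length = ps K m3 - l := by omega
      rw [h9]
      have h10 : p.length * gg s t + z.length = nn s t := by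
        rw [hzlen, ← Nat.add_mul]
        unfold nn
        rw [Nat.mul_comm]
        congr 1
        omega
      omega

end Pool.Agent.H37.ERA
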