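import Pool.Agent.H37.ERA.MK1

/-!
MP_e0047e_lc, board era, module MK2: mark at a root which is not open.
-/

set_option autoImplicit false

namespace Pool.Agent.H37.ERA

open Pool.Agent.H51.ERA

theorem tl_ge (s t h : ℕ) : 2 * (gg s t * (h + 1)) + 1 ≤ tl s t h := by
  induction h with
  | zero => simp [tl]
  | succ h ih =>
    have e : gg s t * (h + 1 + 1) = gg s t * (h + 1) + gg s t := by ring
    simp only [tl]
    omega

theorem mk2 (hHT : HTStmt) (hLEFT : LEFTStmt) (hWLEN : WLENStmt) : MK2Stmt := by
  intro s t b N K i hne hK hi1 hopen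
  have hnode : IsNode s t i [] := ⟨hi1, Nat.zero_le _⟩
  set l := lo s t i [] with hl
  obtain ⟨hWl, hin⟩ := hWLEN s t b
  obtain ⟨hlo, hhi⟩ := hin i [] hnode
  obtain ⟨z, a, C, hz, ha, hzty⟩ := hLEFT s t b i [] hnode
  have hgn : gg s t ≤ nn s t := by
    unfold nn
    exact Nat.le_mul_of_pos_right _ (by omega)
  have hnn : nn s t = (DD t + 1) * gg s t := by unfold nn; ring
  rw [List.length_nil, Nat.zero_mul, Nat.sub_zero, ← hnn] at hzty
  have hzlen : z.length = nn s t := by
    have := congrArg List.length hzty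
    simpa using this
  have htl := tl_ge s t (DD t)
  have htl2 : 2 * nn s t + 1 ≤ tl s t (DD t) := htl
  have hhid : hi s t i [] = l + tl s t (DD t) := rfl
  have hlenK : (yl K).length = (WW s t b).length := by rw [hK]
  obtain ⟨mC, hmK, hma, hmb⟩ := ps_find K (x := l + gg s t) (by omega)
  have hno : hi s t i [] ≤ ps K (mC + 1) + gg s t := by
    by_contra hlt
    exact hopen ⟨mC + 1, hmK, hmb, by omega⟩
  have hmono := ps_mono K (Nat.le_succ mC)
  simp only [Nat.succ_eq_add_one] at hmono
  have hp4 : ps K (mC + 1) = l + (ps K (mC + 1) - l) := by omega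
  refine ⟨mC, ⟨hmK, sl (WW s t b) (ps K mC) (l + gg s t), z.drop (gg s t), a,
    sl C 0 (ps K (mC + 1) - l - (z.length + 1)), ?_, ha, ?_, ?_⟩⟩
  · rw [yl_slice K (Nat.le_succ mC), hK]
    simp only [Nat.succ_eq_add_one]
    rw [← sl_append (WW s t b) hma (by omega : l + gg s t ≤ ps K (mC + 1))]
    congr 1
    rw [hp4, Nat.add_sub_cancel_left, sl_of_drop hz]
    unfold sl
    have hlen : ((z.map Ltr.op).length : ℕ) = z.length := List.length_map _
    have h5 : ps K (mC + 1) - l = (z.map Ltr.op).length + (ps K (mC + 1) - l - (z.length + 1) + 1) := by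
      rw [hlen]; omega
    rw [h5, List.take_length_add_append, List.take_succ_cons,
      List.drop_append_of_le_length (by rw [hlen]; omega), ← List.map_drop, ← h5, List.drop_zero]
  · rw [List.map_drop, hzty, ← List.map_drop]
    congr 1
    rw [List.drop_range']
    simp
  · have h6 : yl (K.take mC) ++ sl (WW s t b) (ps K mC) (l + gg s t) = (WW s t b).take (l + gg s t) := by
      rw [yl_take, hK, take_sl _ hma]
    rw [h6]
    have h8 := hHT s t b i [] (gg s t) hnode le_rfl
    rw [← hl, List.length_nil, Nat.zero_mul, Nat.zero_add] at h8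
    exact h8

end Pool.Agent.H37.ERA
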